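import Pool.Agent.Helper72.EM.Adj

/-!
# Factors contained in a Lie algebra are contained in its derived algebra (row FDR of project T33)
-/

set_option autoImplicit false

open Matrix MT EM

namespace EM72

/-- A matrix of trace zero is a sum of brackets. -/
theorem trace_zero_brackets {K : Type} [Field K] [CharZero K] {r : ℕ} (hr : 0 < r)
    (y : Matrix (Fin r) (Fin r) K) (hy : y.trace = 0) :
    y = ∑ i : Fin r, ∑ j : Fin r, (-(r : K)⁻¹) •
      ((Matrix.single i j (1 : K) * y) * Matrix.single j i (1 : K) -
        Matrix.single j i (1 : K) * (Matrix.single i j (1 : K) * y)) := by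
  have hr0 : (r : K) ≠ 0 := Nat.cast_ne_zero.mpr hr.ne'
  have h1 : ∑ i : Fin r, ∑ j : Fin r,
      (Matrix.single i j (1 : K) * y) * Matrix.single j i (1 : K) = y.trace • 1 := by
    ext a b
    rw [Matrix.sum_apply]
    have : ∀ i : Fin r, (∑ j : Fin r,
        (Matrix.single i j (1 : K) * y) * Matrix.single j i (1 : K)) a b =
        if a = i ∧ b = i then y.trace else 0 := by
      intro i
      rw [Matrix.sum_apply]
      by_cases hb : b = i
      · subst hb
        simp only [Matrix.mul_single_apply_same]
        by_cases ha : a = b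
        · subst ha
          simp [Matrix.trace]
        · simp [ha]
      · rw [if_neg (by tauto)]
        refine Finset.sum_eq_zero fun j _ => ?_
        rw [Matrix.mul_single_apply_of_ne]
        exact fun h => hb h
    simp only [this]
    rw [Matrix.smul_apply, Matrix.one_apply]
    by_cases hab : a = b
    · subst hab
      simp
    · rw [if_neg hab, smul_zero]
      refine Finset.sum_eq_zero fun i _ => ?_
      rw [if_neg]
      rintro ⟨e1, e2⟩
      exact hab (e1.trans e2.symm)
  have h2 : ∑ i : Fin r, ∑ j : Fin r,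
      Matrix.single j i (1 : K) * (Matrix.single i j (1 : K) * y) = (r : K) • y := by
    have e1 : ∀ i j : Fin r, Matrix.single j i (1 : K) * (Matrix.single i j (1 : K) * y) =
        Matrix.single j j (1 : K) * y := by
      intro i j
      rw [← Matrix.mul_assoc, Matrix.single_mul_single_same, one_mul]
    simp only [e1]
    rw [Finset.sum_const, Finset.card_univ, Fintype.card_fin, ← Finset.sum_mul]
    have e2 : ∑ j : Fin r, Matrix.single j j (1 : K) = 1 := by
      ext a b
      rw [Matrix.sum_apply]
      simp only [Matrix.single_apply, Matrix.one_apply]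
      by_cases hab : a = b
      · subst hab
        simp
      · rw [if_neg hab]
        refine Finset.sum_eq_zero fun i _ => ?_
        rw [if_neg]
        rintro ⟨e1, e2⟩
        exact hab (e1.symm.trans e2)
    rw [e2, Matrix.one_mul, Nat.cast_smul_eq_nsmul]
  have h3 : ∑ i : Fin r, ∑ j : Fin r, (-(r : K)⁻¹) •
      ((Matrix.single i j (1 : K) * y) * Matrix.single j i (1 : K) -
        Matrix.single j i (1 : K) * (Matrix.single i j (1 : K) * y)) =
      (-(r : K)⁻¹) • (y.trace • (1 : Matrix (Fin r) (Fin r) K) - (r : K) • y) := by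
    rw [← h1, ← h2, ← Finset.sum_sub_distrib, Finset.smul_sum]
    refine Finset.sum_congr rfl fun i _ => ?_
    rw [← Finset.sum_sub_distrib, Finset.smul_sum]
  rw [h3, hy, zero_smul, zero_sub, smul_neg, neg_smul, neg_neg, smul_smul, inv_mul_cancel₀ hr0,
    one_smul]

/-- The brackets of matrices do not change if the traces are removed. -/
theorem bracket_tr {K : Type} [Field K] [CharZero K] {r : ℕ} (hr : 0 < r)
    (a b : Matrix (Fin r) (Fin r) K) :
    ∃ a' b' : Matrix (Fin r) (Fin r) K, a'.trace = 0 ∧ b'.trace = 0 ∧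
      a * b - b * a = a' * b' - b' * a' := by
  have hr0 : (r : K) ≠ 0 := Nat.cast_ne_zero.mpr hr.ne'
  refine ⟨a - (a.trace / r) • 1, b - (b.trace / r) • 1, ?_, ?_, ?_⟩
  · rw [Matrix.trace_sub, Matrix.trace_smul, Matrix.trace_one, Fintype.card_fin, smul_eq_mul,
      div_mul_cancel₀ _ hr0, sub_self]
  · rw [Matrix.trace_sub, Matrix.trace_smul, Matrix.trace_one, Fintype.card_fin, smul_eq_mul,
      div_mul_cancel₀ _ hr0, sub_self]
  · simp only [Matrix.sub_mul, Matrix.mul_sub, Matrix.smul_mul, Matrix.mul_smul, Matrix.one_mul,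
      Matrix.mul_one, smul_sub]
    rw [smul_comm (b.trace / (r : K)) (a.trace / (r : K))]
    abel

end EM72

namespace EM

open EM72

theorem st_FDR (prm : ST_PRM) (coo : ST_COO) (pfo : ST_PFO) : ST_FDR := by
  intro K _ _ _ n w h ψ L P k r f hs hf he hcond hful
  obtain ⟨hk, -, horth, -, hadj, hadjP⟩ := prm K n w h ψ L P hs hf
  obtain ⟨hVU, hUV, -, -, -⟩ := coo K n L P k r f he
  have hd := hs.unit
  set ε := idm L P k with hε
  have hεP : ε ∈ Prm L := hk k
  have hr : 0 < r := by
    obtain ⟨i, -⟩ := (he.rng k).mpr fun _ _ => rfl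
    exact Nat.lt_of_le_of_lt (Nat.zero_le _) i.2
  constructor
  · intro hreal A hA1 hA2
    have hprf : Prf ψ ε := by
      refine pfo K n w h ψ L P k r f hs hf he hreal ?_
      rcases hcond with h1 | h1 | h1
      · exact Or.inl h1
      · exact Or.inr h1
      · exact absurd hreal h1
    have hsp := hprf A hA1 hA2
    refine Submodule.span_mono ?_ hsp
    rintro Z ⟨A₀, B₀, ⟨a1, a2⟩, ⟨b1, b2⟩, rfl⟩
    exact ⟨A₀, hful.1 hreal A₀ a1 a2, B₀, hful.1 hreal B₀ b1 b2, rfl⟩
  · intro hnr Y hY1 hY2
    set U := UU P f with hU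
    set V := VV P f with hV
    -- the linear map `y ↦ U y V - adj (U y V)`
    let Φ : Matrix (Fin r) (Fin r) K →ₗ[K] Matrix (Fin n) (Fin n) K :=
      { toFun := fun y => U * y * V - adj ψ (U * y * V)
        map_add' := fun x y => by
          rw [Matrix.mul_add, Matrix.add_mul, adj_add]
          abel
        map_smul' := fun c x => by
          rw [Matrix.mul_smul, Matrix.smul_mul, adj_smul, RingHom.id_apply, smul_sub] }
    have hΦ : ∀ y, Φ y = U * y * V - adj ψ (U * y * V) := fun y => rfl
    have hε2 : ε * ε = ε := hεP.2.1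
    have hcomp : ∀ y : Matrix (Fin r) (Fin r) K, ε * (U * y * V) * ε = U * y * V := by
      intro y
      rw [← hUV]
      calc (U * V) * (U * y * V) * (U * V) = U * (V * U) * y * (V * U) * V := by
            simp only [Matrix.mul_assoc]
        _ = U * y * V := by rw [hVU, Matrix.mul_one, Matrix.mul_one]
    have htr : ∀ y : Matrix (Fin r) (Fin r) K, (U * y * V).trace = y.trace := by
      intro y
      rw [Matrix.trace_mul_comm, ← Matrix.mul_assoc, hVU, Matrix.one_mul]
    have o2 : ε * adj ψ ε = 0 := horth ε hεP _ (hadjP ε hεP) (Ne.symm hnr)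
    have o3 : adj ψ ε * ε = 0 := horth _ (hadjP ε hεP) ε hεP hnr
    have hadjc : ∀ X : Matrix (Fin n) (Fin n) K, ε * X * ε = X →
        adj ψ ε * adj ψ X * adj ψ ε = adj ψ X := by
      intro X hX
      conv_rhs => rw [← hX]
      rw [adj_mul hd, adj_mul hd, Matrix.mul_assoc]
    -- brackets
    have hbr : ∀ a b : Matrix (Fin r) (Fin r) K, a.trace = 0 → b.trace = 0 →
        Φ (a * b - b * a) ∈ HG.der L := by
      intro a b ha hb
      have m1 : Φ a ∈ L := by
        rw [hΦ]
        exact hful.2 hnr _ (hcomp a) ((htr a).trans ha)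
      have m2 : Φ b ∈ L := by
        rw [hΦ]
        exact hful.2 hnr _ (hcomp b) ((htr b).trans hb)
      have key : Φ (a * b - b * a) = Φ a * Φ b - Φ b * Φ a := by
        have hprod : ∀ x y : Matrix (Fin r) (Fin r) K,
            (U * x * V) * (U * y * V) = U * (x * y) * V := by
          intro x y
          calc (U * x * V) * (U * y * V) = U * x * (V * U) * y * V := by
                simp only [Matrix.mul_assoc]
            _ = U * (x * y) * V := by rw [hVU, Matrix.mul_one]; simp only [Matrix.mul_assoc]
        have hz1 : ∀ x y : Matrix (Fin r) (Fin r) K,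
            (U * x * V) * adj ψ (U * y * V) = 0 := by
          intro x y
          rw [← hcomp x, ← hadjc _ (hcomp y)]
          calc ε * (U * x * V) * ε * (adj ψ ε * adj ψ (U * y * V) * adj ψ ε) =
              ε * (U * x * V) * (ε * adj ψ ε) * adj ψ (U * y * V) * adj ψ ε := by
                simp only [Matrix.mul_assoc]
            _ = 0 := by rw [o2]; simp only [Matrix.mul_zero, Matrix.zero_mul]
        have hz2 : ∀ x y : Matrix (Fin r) (Fin r) K,
            adj ψ (U * x * V) * (U * y * V) = 0 := by
          intro x y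
          rw [← hcomp y, ← hadjc _ (hcomp x)]
          calc adj ψ ε * adj ψ (U * x * V) * adj ψ ε * (ε * (U * y * V) * ε) =
              adj ψ ε * adj ψ (U * x * V) * (adj ψ ε * ε) * (U * y * V) * ε := by
                simp only [Matrix.mul_assoc]
            _ = 0 := by rw [o3]; simp only [Matrix.mul_zero, Matrix.zero_mul]
        have hpp : ∀ x y : Matrix (Fin r) (Fin r) K, Φ x * Φ y =
            U * (x * y) * V + adj ψ (U * (y * x) * V) := by
          intro x y
          rw [hΦ, hΦ, Matrix.sub_mul, Matrix.mul_sub, Matrix.mul_sub, hprod, hz1, hz2,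
            ← adj_mul hd, hprod]
          abel
        rw [hpp, hpp, hΦ, Matrix.mul_sub, Matrix.sub_mul, adj_sub]
        abel
      rw [key]
      exact Submodule.subset_span ⟨_, m1, _, m2, rfl⟩
    have hbr' : ∀ a b : Matrix (Fin r) (Fin r) K, Φ (a * b - b * a) ∈ HG.der L := by
      intro a b
      obtain ⟨a', b', ha, hb, hab⟩ := bracket_tr hr a b
      rw [hab]
      exact hbr a' b' ha hb
    have hYy : Y = U * (V * Y * U) * V := by
      conv_lhs => rw [← hY1]
      rw [← hUV]
      simp only [Matrix.mul_assoc]
    set y := V * Y * U with hy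
    have hyt : y.trace = 0 := by rw [← htr y, ← hYy, hY2]
    have hfin : Φ y ∈ HG.der L := by
      rw [trace_zero_brackets hr y hyt, map_sum]
      refine Submodule.sum_mem _ fun i _ => ?_
      rw [map_sum]
      refine Submodule.sum_mem _ fun j _ => ?_
      rw [map_smul]
      exact Submodule.smul_mem _ _ (hbr' _ _)
    rw [hΦ, ← hYy] at hfin
    exact hfin

end EM
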