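import Pool.Agent.Helper72.EM.LAM

/-!
# The eigenvalue on the line of degree one: the theorem (row LAM of project T33)
-/

set_option autoImplicit false

open Matrix MT EM72

namespace EM

theorem st_LAM : ST_LAM := by
  intro K _ _ r w ψ P s i₀ j₀ Z hd hsym hsi hsj hs0 hT hZ hTZ
  have hpQ : (P : Matrix (Fin r) (Fin r) K) *
      ((P⁻¹ : Matrix.GeneralLinearGroup (Fin r) K) : Matrix (Fin r) (Fin r) K) = 1 := by
    rw [← Units.val_mul, mul_inv_cancel, Units.val_one]
  have hcm := conj_mul P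
  have hcd := conj_dg P s
  have hcs : ∀ X : Matrix (Fin r) (Fin r) K, X.transpose * ψ + ψ * X = 0 → _ :=
    fun X hX => conj_skew P hX
  have hci : ∀ X Y : Matrix (Fin r) (Fin r) K, _ → X = Y := fun X Y h => conj_inj P (X := X)
    (Y := Y) h
  have haac := fun (σ : K) (u x : Fin r → K) => AA_conj (ψ := ψ) (σ := σ) P u x
  have hdv := dg_mulVec P s
  have hev : evl P Z i₀ = (((P⁻¹ : Matrix.GeneralLinearGroup (Fin r) K) :
      Matrix (Fin r) (Fin r) K) * Z * (P : Matrix (Fin r) (Fin r) K)) i₀ i₀ := rfl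
  set p := (P : Matrix (Fin r) (Fin r) K) with hp
  set Q := ((P⁻¹ : Matrix.GeneralLinearGroup (Fin r) K) : Matrix (Fin r) (Fin r) K) with hQ
  set φ := p.transpose * ψ * p with hφ
  set z := Q * Z * p with hz
  have hpd : p.det ≠ 0 := by
    intro h0
    have h1 := congrArg Matrix.det hpQ
    rw [Matrix.det_mul, h0, zero_mul, Matrix.det_one] at h1
    exact zero_ne_one h1
  have hφd : φ.det ≠ 0 := by
    rw [hφ, Matrix.det_mul, Matrix.det_mul, Matrix.det_transpose]
    exact mul_ne_zero (mul_ne_zero hpd hd) hpd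
  have hF : Fz s i₀ j₀ φ z := {
    si := hsi
    sj := hsj
    s0 := hs0
    det := hφd
    skew := by
      have h1 := hcs _ hT
      rw [hcd] at h1
      exact h1
    zskew := hcs _ hZ
    comm := by rw [zero_smul, ← hcd, hz, ← hcm, ← hcm, hTZ, sub_self] }
  have hσ : ((-1 : K) ^ w) * ((-1 : K) ^ w) = 1 := by
    rw [← mul_pow, neg_mul_neg, one_mul, one_pow]
  have hφs : φ.transpose = (-1 : K) ^ w • φ := by
    rw [hφ, Matrix.transpose_mul, Matrix.transpose_mul, Matrix.transpose_transpose, hsym,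
      Matrix.smul_mul, Matrix.mul_smul, Matrix.mul_assoc]
  have hφji : φ j₀ i₀ ≠ 0 := by
    have h1 := congrFun (congrFun hφs j₀) i₀
    rw [Matrix.transpose_apply, Matrix.smul_apply, smul_eq_mul] at h1
    intro h0
    rw [h0, mul_zero] at h1
    exact hF.piv h1
  have hφj : ∀ j, j ≠ j₀ → φ j i₀ = 0 := by
    intro j hj
    have h1 := congrFun (congrFun hφs j) i₀
    rw [Matrix.transpose_apply, Matrix.smul_apply, smul_eq_mul, hF.row hj] at h1
    rcases mul_eq_zero.mp h1.symm with h2 | h2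
    · exfalso
      rw [h2, zero_mul] at hσ
      exact zero_ne_one hσ
    · exact h2
  have hdeg : ∀ {x : K} {Y : Matrix (Fin r) (Fin r) K}, Y ∈ Deg ψ (dg P s) x →
      Matrix.diagonal (fun j => (s j : K)) * (Q * Y * p) -
        (Q * Y * p) * Matrix.diagonal (fun j => (s j : K)) = x • (Q * Y * p) := by
    intro x Y hY
    rw [← hcd, ← hcm, ← hcm, ← Matrix.sub_mul, ← Matrix.mul_sub, hY.2, Matrix.mul_smul,
      Matrix.smul_mul]
  rw [hev]
  constructor
  · intro f hf
    let e : Deg ψ (dg P s) 1 →ₗ[K] ({j : Fin r // j ≠ i₀ ∧ j ≠ j₀} → K) :=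
      { toFun := fun Y a => (Q * (Y : Matrix (Fin r) (Fin r) K) * p) a j₀
        map_add' := fun X Y => by
          funext a
          rw [Submodule.coe_add, Matrix.mul_add, Matrix.add_mul]
          rfl
        map_smul' := fun c X => by
          funext a
          rw [Submodule.coe_smul, Matrix.mul_smul, Matrix.smul_mul]
          rfl }
    have he : ∀ (Y : Deg ψ (dg P s) 1) a,
        e Y a = (Q * (Y : Matrix (Fin r) (Fin r) K) * p) a j₀ := fun _ _ => rfl
    have hinj : Function.Injective e := by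
      rw [injective_iff_map_eq_zero]
      intro Y hY
      have hy := hdeg Y.2
      have hys := hcs _ Y.2.1
      refine Subtype.ext (hci _ _ ?_)
      have hc0 : ∀ c, (Q * (Y : Matrix (Fin r) (Fin r) K) * p) c j₀ = 0 := by
        intro c
        by_cases h1 : c = i₀
        · refine deg1 hy ?_
          rw [h1, hsi, hsj]
          omega
        · by_cases h2 : c = j₀
          · refine deg1 hy ?_
            rw [h2, sub_self]
            omega
          · exact congrFun hY ⟨c, h1, h2⟩
      rw [Submodule.coe_zero, Matrix.mul_zero, Matrix.zero_mul]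
      ext i j
      rw [Matrix.zero_apply]
      by_cases hj : j = j₀
      · rw [hj]
        exact hc0 i
      by_cases hi : i = i₀
      · rw [hi]
        by_cases hji : j = i₀
        · refine deg1 hy ?_
          rw [hji, sub_self]
          omega
        · have h1 := congrFun (congrFun hys j) j₀
          rw [Matrix.add_apply, Matrix.mul_apply, Matrix.mul_apply, Matrix.zero_apply,
            Finset.sum_eq_single i₀, Matrix.transpose_apply] at h1
          · have h2 : ∑ c, φ j c * (Q * (Y : Matrix (Fin r) (Fin r) K) * p) c j₀ = 0 :=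
              Finset.sum_eq_zero fun c _ => by rw [hc0 c, mul_zero]
            rw [h2, add_zero] at h1
            exact (mul_eq_zero.mp h1).resolve_right hF.piv
          · intro c _ hc
            rw [hF.col hc, mul_zero]
          · intro hh
            exact absurd (Finset.mem_univ _) hh
      · refine deg1 hy ?_
        have h1 : s i ≠ 1 := fun h2 => hF.s_i hi (h2.trans hsi.symm)
        have h2 : s j ≠ -1 := fun h2 => hF.s_j hj (h2.trans hsj.symm)
        have h3 : s i = -1 ∨ s i = 0 := by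
          by_cases e2 : i = j₀
          · exact Or.inl (e2 ▸ hsj)
          · exact Or.inr (hs0 i hi e2)
        have h4 : s j = 1 ∨ s j = 0 := by
          by_cases e2 : j = i₀
          · exact Or.inl (e2 ▸ hsi)
          · exact Or.inr (hs0 j e2 hj)
        omega
    have hsurj : Function.Surjective e := by
      intro v
      let x : Fin r → K := fun j => if hj : j ≠ i₀ ∧ j ≠ j₀ then v ⟨j, hj⟩ else 0
      let u : Fin r → K := Pi.single i₀ 1
      have hx : ∀ a : {j : Fin r // j ≠ i₀ ∧ j ≠ j₀}, x a = v a := by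
        intro a
        show (if hj : (a : Fin r) ≠ i₀ ∧ (a : Fin r) ≠ j₀ then v ⟨a, hj⟩ else 0) = v a
        rw [dif_pos a.2]
      have hsx : (fun j => (s j : K) * x j) = 0 := by
        funext j
        by_cases hj : j ≠ i₀ ∧ j ≠ j₀
        · rw [hs0 j hj.1 hj.2, Int.cast_zero, zero_mul, Pi.zero_apply]
        · have : x j = 0 := dif_neg hj
          rw [this, mul_zero, Pi.zero_apply]
      have hsu : (fun j => (s j : K) * u j) = u := by
        funext j
        by_cases hj : j = i₀
        · rw [hj, hsi, Int.cast_one, one_mul]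
        · have : u j = 0 := Pi.single_eq_of_ne hj 1
          rw [this, mul_zero]
      let Y₀ : Matrix (Fin r) (Fin r) K := AA ψ ((-1 : K) ^ w) (p *ᵥ u) (p *ᵥ x)
      have hY₀s : Y₀.transpose * ψ + ψ * Y₀ = 0 := AA_skew hσ hsym _ _
      have hY₀T : dg P s * Y₀ - Y₀ * dg P s = (1 : K) • Y₀ := by
        have h1 := AA_brk (σ := (-1 : K) ^ w) hT (p *ᵥ u) (p *ᵥ x)
        rw [hdv, hdv, hsx, hsu] at h1
        have h2 : AA ψ ((-1 : K) ^ w) (p *ᵥ u) (p *ᵥ (0 : Fin r → K)) = 0 := by
          unfold AA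
          rw [mulVec_zero, mulVec_zero]
          ext i j
          simp
        rw [h2, add_zero] at h1
        rw [one_smul]
        exact h1
      have hYm : (φ j₀ i₀)⁻¹ • Y₀ ∈ Deg ψ (dg P s) 1 :=
        (Deg ψ (dg P s) 1).smul_mem _ ⟨hY₀s, hY₀T⟩
      refine ⟨⟨_, hYm⟩, ?_⟩
      funext a
      rw [he]
      show (Q * ((φ j₀ i₀)⁻¹ • Y₀) * p) a j₀ = v a
      rw [Matrix.mul_smul, Matrix.smul_mul, Matrix.smul_apply, haac]
      have h3 : AA φ ((-1 : K) ^ w) u x a j₀ = v a * φ j₀ i₀ := by
        unfold AA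
        rw [Matrix.sub_apply, Matrix.smul_apply, Matrix.vecMulVec_apply, Matrix.vecMulVec_apply,
          hx a]
        have h4 : u a = 0 := Pi.single_eq_of_ne a.2.1 1
        have h5 : (φ *ᵥ u) j₀ = φ j₀ i₀ := by
          show (φ *ᵥ Pi.single i₀ 1) j₀ = _
          rw [mulVec_single_one]
          rfl
        rw [h4, h5, zero_mul, smul_zero, sub_zero]
      rw [h3, smul_eq_mul]
      field_simp
    let E := LinearEquiv.ofBijective e ⟨hinj, hsurj⟩
    let M : Matrix {j : Fin r // j ≠ i₀ ∧ j ≠ j₀} {j : Fin r // j ≠ i₀ ∧ j ≠ j₀} K :=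
      Matrix.of (fun a b : {j : Fin r // j ≠ i₀ ∧ j ≠ j₀} => z a b) + (z i₀ i₀) •
        (1 : Matrix {j : Fin r // j ≠ i₀ ∧ j ≠ j₀} {j : Fin r // j ≠ i₀ ∧ j ≠ j₀} K)
    have hconj : E.conj f = Matrix.toLin' M := by
      refine LinearMap.ext fun v => ?_
      obtain ⟨Y, rfl⟩ := E.surjective v
      rw [LinearEquiv.conj_apply_apply, LinearEquiv.symm_apply_apply]
      funext a
      have h1 : E (f Y) a = (Q * ((f Y : Deg ψ (dg P s) 1) : Matrix (Fin r) (Fin r) K) * p) a j₀ :=
        rfl
      rw [h1, hf, Matrix.mul_sub, Matrix.sub_mul, hcm, hcm, hF.act1, Matrix.toLin'_apply]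
      show _ = ((Matrix.of (fun a b : {j : Fin r // j ≠ i₀ ∧ j ≠ j₀} => z a b) +
        (z i₀ i₀) • (1 : Matrix {j : Fin r // j ≠ i₀ ∧ j ≠ j₀} {j : Fin r // j ≠ i₀ ∧ j ≠ j₀} K))
          *ᵥ (E Y)) a
      rw [add_mulVec, smul_mulVec, one_mulVec, Pi.add_apply, Pi.smul_apply, smul_eq_mul]
      rfl
    have htr : LinearMap.trace K _ f = M.trace := by
      rw [← LinearMap.trace_conj' f E, hconj, Matrix.trace_toLin'_eq]
    have htM : M.trace = (Fintype.card {j : Fin r // j ≠ i₀ ∧ j ≠ j₀} : K) * z i₀ i₀ := by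
      have h1 : M.trace = ∑ c : {j : Fin r // j ≠ i₀ ∧ j ≠ j₀}, z c c +
          z i₀ i₀ * (Fintype.card {j : Fin r // j ≠ i₀ ∧ j ≠ j₀} : K) := by
        rw [Matrix.trace_add, Matrix.trace_smul, Matrix.trace_one, smul_eq_mul]
        rfl
      rw [h1, hF.tr0]
      ring
    have hcard := card_J hF.ne
    have hcard' : (r : K) = (Fintype.card {j : Fin r // j ≠ i₀ ∧ j ≠ j₀} : K) + 2 := by
      conv_lhs => rw [← hcard]
      push_cast
      ring
    rw [htr, htM, hcard']
    ring
  · intro hw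
    have hs' : ψ.transpose = -ψ := by rw [hsym, hw.neg_one_pow, neg_one_smul]
    let u : Fin r → K := Pi.single i₀ 1
    have hsu : (fun j => (s j : K) * u j) = u := by
      funext j
      by_cases hj : j = i₀
      · rw [hj, hsi, Int.cast_one, one_mul]
      · have : u j = 0 := Pi.single_eq_of_ne hj 1
        rw [this, mul_zero]
    let Y₀ : Matrix (Fin r) (Fin r) K := AA ψ ((-1 : K) ^ w) (p *ᵥ u) (p *ᵥ u)
    have hY₀s : Y₀.transpose * ψ + ψ * Y₀ = 0 := AA_skew hσ hsym _ _
    have hY₀T : dg P s * Y₀ - Y₀ * dg P s = (2 : K) • Y₀ := by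
      have h1 := AA_brk (σ := (-1 : K) ^ w) hT (p *ᵥ u) (p *ᵥ u)
      rw [hdv, hsu] at h1
      rw [two_smul]
      exact h1
    have h5 : ∀ j, (φ *ᵥ u) j = φ j i₀ := by
      intro j
      show (φ *ᵥ Pi.single i₀ 1) j = _
      rw [mulVec_single_one]
      rfl
    have hent : ∀ i j, (Q * Y₀ * p) i j = 2 * (u i * φ j i₀) := by
      intro i j
      have h6 : Q * Y₀ * p = AA φ ((-1 : K) ^ w) u u := haac _ _ _
      rw [h6]
      unfold AA
      rw [Matrix.sub_apply, Matrix.smul_apply, Matrix.vecMulVec_apply, h5, hw.neg_one_pow,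
        smul_eq_mul]
      ring
    have hui : u i₀ = 1 := Pi.single_eq_same i₀ 1
    refine ⟨⟨Y₀, ?_, ⟨hY₀s, hY₀T⟩, ?_⟩, ?_⟩
    · intro h0
      have h1 := hent i₀ j₀
      rw [h0, Matrix.mul_zero, Matrix.zero_mul, Matrix.zero_apply, hui, one_mul] at h1
      rcases mul_eq_zero.mp h1.symm with h2 | h2
      · exact two_ne_zero h2
      · exact hφji h2
    · intro Y hY
      have hy := hdeg hY
      refine ⟨(Q * Y * p) i₀ j₀ / (2 * φ j₀ i₀), hci _ _ ?_⟩
      rw [Matrix.mul_smul, Matrix.smul_mul]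
      ext i j
      rw [Matrix.smul_apply, hent, smul_eq_mul]
      by_cases hi : i = i₀
      · by_cases hj : j = j₀
        · rw [hi, hj, hui]
          field_simp
        · rw [hF.deg2 hy (fun e => hj e.2), hφj j hj]
          ring
      · have : u i = 0 := Pi.single_eq_of_ne hi 1
        rw [hF.deg2 hy (fun e => hi e.1), this]
        ring
    · intro Y hY
      refine hci _ _ ?_
      rw [Matrix.mul_sub, Matrix.sub_mul, hcm, hcm, hF.act2 (hdeg hY), Matrix.mul_smul,
        Matrix.smul_mul]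

end EM
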