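import Pool.Agent.Helper72.EM.PFO

/-!
# Two real blocks (row PAR of project T33)
-/

set_option autoImplicit false

open Matrix MT EM72

namespace EM

theorem st_PAR (prm : ST_PRM) (coo : ST_COO) (bfm : ST_BFM) (aut : ST_AUT) : ST_PAR := by
  intro K _ _ _ n w h ψ L P P' k k' r r' f f' hs hf hf' he he' hreal hreal' hfull hfull' hcond hne
  obtain ⟨hk, -, horth, -, -, -⟩ := prm K n w h ψ L P hs hf
  obtain ⟨hk', -, -, -, -, -⟩ := prm K n w h ψ L P' hs hf'
  obtain ⟨hVU, hUV, hεU, hVε, -⟩ := coo K n L P k r f he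
  obtain ⟨hVU', hUV', hεU', hVε', -⟩ := coo K n L P' k' r' f' he'
  obtain ⟨hirs, hsym, hdown, hup⟩ := bfm K n w h ψ L P k r f hs hf he hreal
  obtain ⟨hirs', hsym', hdown', hup'⟩ := bfm K n w h ψ L P' k' r' f' hs hf' he' hreal'
  have hr := enm_pos he
  have hr' := enm_pos he'
  have hεP := hk k
  have hεP' := hk' k'
  set ε := idm L P k with hε
  set ε' := idm L P' k' with hε'
  set U := UU P f with hU
  set V := VV P f with hV
  set U' := UU P' f' with hU'
  set V' := VV P' f' with hV'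
  set φ := frm ψ P f with hφ
  set φ' := frm ψ P' f' with hφ'
  have hφd : φ.det ≠ 0 := hirs.1
  have hφd' : φ'.det ≠ 0 := hirs'.1
  have hφu : IsUnit φ := (Matrix.isUnit_iff_isUnit_det φ).mpr (isUnit_iff_ne_zero.mpr hφd)
  have hφu' : IsUnit φ' := (Matrix.isUnit_iff_isUnit_det φ').mpr (isUnit_iff_ne_zero.mpr hφd')
  have o1 : ε * ε' = 0 := horth ε hεP ε' hεP' hne
  have o2 : ε' * ε = 0 := horth ε' hεP' ε hεP (Ne.symm hne)
  -- lifting
  have hlift : ∀ Y : Matrix (Fin n) (Fin n) K, Y.transpose * ψ + ψ * Y = 0 → ε * Y * ε = Y →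
      ∀ A : Matrix (Fin n) (Fin n) K, V * Y * U = V * A * U → ε * A * ε = Y := by
    intro Y _ hY2 A hA
    calc ε * A * ε = U * (V * A * U) * V := by rw [← hUV]; simp only [Matrix.mul_assoc]
      _ = U * (V * Y * U) * V := by rw [hA]
      _ = ε * Y * ε := by rw [← hUV]; simp only [Matrix.mul_assoc]
      _ = Y := hY2
  intro Y hY1 hY2
  by_cases hw : ¬ Odd w ∧ (r = 1 ∨ r' = 1)
  · obtain ⟨hw, hone⟩ := hw
    by_cases hr1 : r = 1
    · refine ⟨0, L.zero_mem, ?_, by rw [Matrix.mul_zero, Matrix.zero_mul]⟩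
      have h1 : V * Y * U = 0 := by
        subst hr1
        exact isoS_one hφd (hdown Y hY1)
      refine hlift Y hY1 hY2 0 ?_
      rw [h1, Matrix.mul_zero, Matrix.zero_mul]
    · have hr1' : r' = 1 := hone.resolve_left hr1
      obtain ⟨A, hA, hAY⟩ := hfull (V * Y * U) (hdown Y hY1)
      refine ⟨A, hA, hlift Y hY1 hY2 A hAY, ?_⟩
      have h1 : V' * A * U' = 0 := by
        subst hr1'
        exact isoS_one hφd' (hdown' A (hs.iso A hA))
      rw [← hUV']
      calc U' * V' * A * (U' * V') = U' * (V' * A * U') * V' := by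
            simp only [Matrix.mul_assoc]
        _ = 0 := by rw [h1, Matrix.mul_zero, Matrix.zero_mul]
  · -- the pair
    have hcases : (Odd w ∧ 0 < r ∧ 0 < r') ∨
        (3 ≤ r ∧ 3 ≤ r' ∧ r ≠ 4 ∧ r ≠ 8 ∧ r' ≠ 4 ∧ r' ≠ 8) := by
      rcases hcond with h1 | ⟨h1, h2, h3, h4, h5, h6⟩
      · exact Or.inl ⟨h1, hr, hr'⟩
      · by_cases hw' : Odd w
        · exact Or.inl ⟨hw', hr, hr'⟩
        · have h7 : ¬ (r = 1 ∨ r' = 1) := fun hh => hw ⟨hw', hh⟩
          rw [not_or] at h7
          refine Or.inr ⟨?_, ?_, h2, h3, h5, h6⟩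
          · have := h7.1
            omega
          · have := h7.2
            omega
    have hform : ∀ {s : ℕ} {θ : Matrix (Fin s) (Fin s) K}, IsUnit θ →
        θ.transpose = (-1 : K) ^ w • θ → (Odd w ∨ s ≠ 4) → Grs.Form ((-1 : K) ^ w) θ := by
      intro s θ hu hsy hc
      refine ⟨?_, hsy, hu⟩
      rcases sign_cases (K := K) w with ⟨hw1, h1⟩ | ⟨hw1, h1⟩
      · exact Or.inr h1
      · exact Or.inl ⟨h1, hc.resolve_left hw1⟩
    have hF : Grs.Form ((-1 : K) ^ w) φ := hform hφu hsym (by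
      rcases hcases with h1 | h1
      · exact Or.inl h1.1
      · exact Or.inr h1.2.2.1)
    have hF' : Grs.Form ((-1 : K) ^ w) φ' := hform hφu' hsym' (by
      rcases hcases with h1 | h1
      · exact Or.inl h1.1
      · exact Or.inr h1.2.2.2.2.1)
    let Θ : Matrix (Fin n) (Fin n) K →ₗ[K]
        Matrix (Fin r) (Fin r) K × Matrix (Fin r') (Fin r') K :=
      { toFun := fun A => (V * A * U, V' * A * U')
        map_add' := fun A B => by
          rw [Matrix.mul_add, Matrix.add_mul, Matrix.mul_add, Matrix.add_mul]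
          rfl
        map_smul' := fun c A => by
          rw [Matrix.mul_smul, Matrix.smul_mul, Matrix.mul_smul, Matrix.smul_mul]
          rfl }
    have hΘ : ∀ A, Θ A = (V * A * U, V' * A * U') := fun A => rfl
    let R : Submodule K (Matrix (Fin r) (Fin r) K × Matrix (Fin r') (Fin r') K) :=
      L.map Θ
    have hmem : ∀ p, p ∈ R ↔ ∃ A ∈ L, Θ A = p := fun p => Iff.rfl
    -- elements of `L` commute with the idempotents
    have hAε : ∀ A ∈ L, A * ε = ε * A := fun A hA => hεP.1 A hA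
    have hAε' : ∀ A ∈ L, A * ε' = ε' * A := fun A hA => hεP'.1 A hA
    have hAU : ∀ A ∈ L, A * U = U * (V * A * U) := by
      intro A hA
      calc A * U = A * ε * U := by rw [Matrix.mul_assoc, hεU]
        _ = ε * A * U := by rw [hAε A hA]
        _ = U * (V * A * U) := by rw [← hUV]; simp only [Matrix.mul_assoc]
    have hVA : ∀ A ∈ L, V * A = (V * A * U) * V := by
      intro A hA
      calc V * A = V * (ε * A) := by rw [← Matrix.mul_assoc, hVε]
        _ = V * (A * ε) := by rw [hAε A hA]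
        _ = (V * A * U) * V := by rw [← hUV]; simp only [Matrix.mul_assoc]
    have hAU' : ∀ A ∈ L, A * U' = U' * (V' * A * U') := by
      intro A hA
      calc A * U' = A * ε' * U' := by rw [Matrix.mul_assoc, hεU']
        _ = ε' * A * U' := by rw [hAε' A hA]
        _ = U' * (V' * A * U') := by rw [← hUV']; simp only [Matrix.mul_assoc]
    have hprod : ∀ A ∈ L, ∀ B ∈ L, (V * A * U) * (V * B * U) = V * (A * B) * U := by
      intro A _ B hB
      calc (V * A * U) * (V * B * U) = V * A * (U * (V * B * U)) := by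
            simp only [Matrix.mul_assoc]
        _ = V * (A * B) * U := by rw [← hAU B hB]; simp only [Matrix.mul_assoc]
    have hprod' : ∀ A ∈ L, ∀ B ∈ L, (V' * A * U') * (V' * B * U') = V' * (A * B) * U' := by
      intro A _ B hB
      calc (V' * A * U') * (V' * B * U') = V' * A * (U' * (V' * B * U')) := by
            simp only [Matrix.mul_assoc]
        _ = V' * (A * B) * U' := by rw [← hAU' B hB]; simp only [Matrix.mul_assoc]
    have hR1 : ∀ p ∈ R, p.1 ∈ Grs.isoS φ ∧ p.2 ∈ Grs.isoS φ' := by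
      intro p hp
      obtain ⟨A, hA, rfl⟩ := (hmem p).mp hp
      exact ⟨hdown A (hs.iso A hA), hdown' A (hs.iso A hA)⟩
    have hR2 : ∀ p ∈ R, ∀ q ∈ R, p * q - q * p ∈ R := by
      intro p hp q hq
      obtain ⟨A, hA, rfl⟩ := (hmem p).mp hp
      obtain ⟨B, hB, rfl⟩ := (hmem q).mp hq
      refine (hmem _).mpr ⟨A * B - B * A, hs.brk A hA B hB, ?_⟩
      rw [hΘ, hΘ, hΘ, Prod.mk_mul_mk, Prod.mk_mul_mk, Prod.mk_sub_mk, hprod A hA B hB,
        hprod B hB A hA, hprod' A hA B hB, hprod' B hB A hA, Matrix.mul_sub, Matrix.sub_mul,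
        Matrix.mul_sub, Matrix.sub_mul]
    have hR3 : ∀ A ∈ Grs.isoS φ, ∃ B, (A, B) ∈ R := by
      intro y hy
      obtain ⟨A, hA, hAy⟩ := hfull y hy
      refine ⟨V' * A * U', (hmem _).mpr ⟨A, hA, ?_⟩⟩
      rw [hΘ, ← hAy]
    have hR4 : ∀ B ∈ Grs.isoS φ', ∃ A, (A, B) ∈ R := by
      intro y hy
      obtain ⟨A, hA, hAy⟩ := hfull' y hy
      refine ⟨V * A * U, (hmem _).mpr ⟨A, hA, ?_⟩⟩
      rw [hΘ, ← hAy]
    rcases Grs.goursat (Grs.isoS φ) (Grs.isoS φ') hF.simple hF'.simple R hR1 hR2 hR3 hR4 with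
      hall | hgr
    · obtain ⟨A, hA, hAe⟩ := (hmem _).mp (hall (V * Y * U) (hdown Y hY1) 0 (Submodule.zero_mem _))
      rw [hΘ, Prod.mk.injEq] at hAe
      refine ⟨A, hA, hlift Y hY1 hY2 A hAe.1.symm, ?_⟩
      rw [← hUV']
      calc U' * V' * A * (U' * V') = U' * (V' * A * U') * V' := by
            simp only [Matrix.mul_assoc]
        _ = 0 := by rw [hAe.2, Matrix.mul_zero, Matrix.zero_mul]
    · exfalso
      obtain ⟨B, hB0, hB⟩ := aut K r r' w φ φ' R hφd hsym hφd' hsym' hcases hR1 hR2 hR3 hR4 hgr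
      have hBc : U' * B * V ∈ Cmt L := by
        intro A hA
        have h1 := hB (Θ A) ((hmem _).mpr ⟨A, hA, rfl⟩)
        rw [hΘ] at h1
        have h2 : V' * A * U' * B = B * (V * A * U) := h1
        calc A * (U' * B * V) = (A * U') * B * V := by simp only [Matrix.mul_assoc]
          _ = U' * (V' * A * U' * B) * V := by rw [hAU' A hA]; simp only [Matrix.mul_assoc]
          _ = U' * B * ((V * A * U) * V) := by rw [h2]; simp only [Matrix.mul_assoc]
          _ = U' * B * V * A := by rw [← hVA A hA]; simp only [Matrix.mul_assoc]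
      have hz : U' * B * V = 0 := by
        calc U' * B * V = (ε' * U') * B * (V * ε) := by rw [hεU', hVε]
          _ = ε' * (U' * B * V) * ε := by simp only [Matrix.mul_assoc]
          _ = (U' * B * V) * ε' * ε := by rw [hs.comm _ hεP'.1 _ hBc]
          _ = 0 := by rw [Matrix.mul_assoc, o2, Matrix.mul_zero]
      apply hB0
      calc B = (V' * U') * B * (V * U) := by rw [hVU, hVU', Matrix.one_mul, Matrix.mul_one]
        _ = V' * (U' * B * V) * U := by simp only [Matrix.mul_assoc]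
        _ = 0 := by rw [hz, Matrix.mul_zero, Matrix.zero_mul]

end EM
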