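import Pool.Agent.Helper72.EM.Prf

/-!
# The infinitesimal isometries of a real block are perfect (row PFO of project T33)
-/

set_option autoImplicit false

open Matrix MT EM

namespace EM72

/-- signs -/
theorem sign_cases {K : Type} [Field K] (w : ℕ) :
    (Odd w ∧ (-1 : K) ^ w = -1) ∨ (¬ Odd w ∧ (-1 : K) ^ w = 1) := by
  rcases Nat.even_or_odd w with h | h
  · exact Or.inr ⟨Nat.not_odd_iff_even.mpr h, h.neg_one_pow⟩
  · exact Or.inl ⟨h, h.neg_one_pow⟩

/-- In dimension one, infinitesimal isometries of a symmetric form vanish. -/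
theorem isoS_one {K : Type} [Field K] [CharZero K] {φ y : Matrix (Fin 1) (Fin 1) K}
    (hd : φ.det ≠ 0) (hy : y.transpose * φ + φ * y = 0) : y = 0 := by
  have h1 := congrFun (congrFun hy 0) 0
  rw [Matrix.add_apply, Matrix.mul_apply, Matrix.mul_apply, Fin.sum_univ_one, Fin.sum_univ_one,
    Matrix.transpose_apply, Matrix.zero_apply] at h1
  rw [Matrix.det_fin_one] at hd
  have h2 : (2 : K) * φ 0 0 * y 0 0 = 0 := by linear_combination h1
  have h3 : y 0 0 = 0 := by
    rcases mul_eq_zero.mp h2 with h3 | h3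
    · exact absurd h3 (mul_ne_zero two_ne_zero hd)
    · exact h3
  ext i j
  have hi : i = 0 := Subsingleton.elim _ _
  have hj : j = 0 := Subsingleton.elim _ _
  rw [hi, hj, h3, Matrix.zero_apply]

end EM72

namespace EM

open EM72

theorem st_PFO (coo : ST_COO) (bfm : ST_BFM) : ST_PFO := by
  intro K _ _ _ n w h ψ L P k r f hs hf he hreal hcond
  obtain ⟨hVU, hUV, -, -, -⟩ := coo K n L P k r f he
  obtain ⟨hirs, hsym, hdown, hup⟩ := bfm K n w h ψ L P k r f hs hf he hreal
  have hr := enm_pos he
  set ε := idm L P k with hε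
  set U := UU P f with hU
  set V := VV P f with hV
  set φ := frm ψ P f with hφ
  have hφd : φ.det ≠ 0 := hirs.1
  have hφu : IsUnit φ := (Matrix.isUnit_iff_isUnit_det φ).mpr (isUnit_iff_ne_zero.mpr hφd)
  have hcomp : ∀ y : Matrix (Fin r) (Fin r) K, ε * (U * y * V) * ε = U * y * V := by
    intro y
    rw [← hUV]
    calc (U * V) * (U * y * V) * (U * V) = U * (V * U) * y * (V * U) * V := by
          simp only [Matrix.mul_assoc]
      _ = U * y * V := by rw [hVU, Matrix.mul_one, Matrix.mul_one]
  have hprod : ∀ x y : Matrix (Fin r) (Fin r) K,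
      (U * x * V) * (U * y * V) = U * (x * y) * V := by
    intro x y
    calc (U * x * V) * (U * y * V) = U * x * (V * U) * y * V := by
          simp only [Matrix.mul_assoc]
      _ = U * (x * y) * V := by rw [hVU, Matrix.mul_one]; simp only [Matrix.mul_assoc]
  intro Y hY1 hY2
  have hYy : Y = U * (V * Y * U) * V := by
    conv_lhs => rw [← hY2]
    rw [← hUV]
    simp only [Matrix.mul_assoc]
  have hys : V * Y * U ∈ Grs.isoS φ := hdown Y hY1
  generalize V * Y * U = y at hYy hys
  rw [hYy]
  -- the block is perfect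
  have hperf : y ∈ Submodule.span K {C | ∃ X ∈ Grs.isoS φ, ∃ Z ∈ Grs.isoS φ,
      C = X * Z - Z * X} := by
    rcases sign_cases (K := K) w with ⟨hw, h1⟩ | ⟨hw, h1⟩
    · rw [h1] at hsym
      have hs' : φ.transpose = -φ := by rw [hsym, neg_one_smul]
      exact (Grs.Form.perfect (ε := (-1 : K)) ⟨Or.inr rfl, hsym, hφu⟩
        (Grs.nonabelian_sp hs' hφu hr)) y hys
    · rw [h1, one_smul] at hsym
      by_cases hr1 : r = 1
      · subst hr1
        rw [isoS_one hφd hys]
        exact Submodule.zero_mem _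
      · have hr2 : r ≠ 2 := hcond.resolve_left hw
        exact so_perfect hsym hφu (by omega) hys
  clear hYy hys
  induction hperf using Submodule.span_induction with
  | mem C hC =>
    obtain ⟨X, hX, Z, hZ, rfl⟩ := hC
    refine Submodule.subset_span ⟨U * X * V, U * Z * V, ⟨hup X hX, hcomp X⟩, ⟨hup Z hZ, hcomp Z⟩,
      ?_⟩
    rw [hprod, hprod, Matrix.mul_sub, Matrix.sub_mul]
  | zero =>
    rw [Matrix.mul_zero, Matrix.zero_mul]
    exact Submodule.zero_mem _
  | add C D _ _ h1 h2 =>
    rw [Matrix.mul_add, Matrix.add_mul]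
    exact Submodule.add_mem _ h1 h2
  | smul c C _ h1 =>
    rw [Matrix.mul_smul, Matrix.smul_mul]
    exact Submodule.smul_mem _ _ h1

end EM
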