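import Pool.Agent.Helper72.EM.Adj

/-!
# A real block and a factor contained in the Lie algebra (row PRC of project T33)
-/

set_option autoImplicit false

open Matrix MT EM72

namespace EM

theorem st_PRC (prm : ST_PRM) : ST_PRC := by
  intro K _ _ n w h ψ L P ε ε' hs hf he he' hne hr hsur hprf hful
  obtain ⟨-, -, horth, -, hadj, hadjP⟩ := prm K n w h ψ L P hs hf
  have hd := hs.unit
  have hεε' : ε * ε' = 0 := horth ε he ε' he' hne
  have hε'ε : ε' * ε = 0 := horth ε' he' ε he (Ne.symm hne)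
  have hε' : ε' * ε' = ε' := he'.2.1
  intro Y hY1 hY2
  by_cases hr' : adj ψ ε' = ε'
  · obtain ⟨A, hA, hAY⟩ := hsur Y hY1 hY2
    have hAs := (skew_iff hd A).mp (hs.iso A hA)
    have h1 : ε' * A * ε' ∈ L := by
      refine hful.1 hr' _ ?_ ?_
      · rw [skew_iff hd, adj_mul hd, adj_mul hd, hr', hAs, Matrix.neg_mul, Matrix.mul_neg,
          Matrix.mul_assoc]
      · calc ε' * (ε' * A * ε') * ε' = (ε' * ε') * A * (ε' * ε') := by
              simp only [Matrix.mul_assoc]
          _ = ε' * A * ε' := by rw [hε']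
    refine ⟨A - ε' * A * ε', L.sub_mem hA h1, ?_, ?_⟩
    · rw [Matrix.mul_sub, Matrix.sub_mul, hAY]
      have : ε * (ε' * A * ε') * ε = (ε * ε') * A * (ε' * ε) := by
        simp only [Matrix.mul_assoc]
      rw [this, hεε', Matrix.zero_mul, Matrix.zero_mul, sub_zero]
    · rw [Matrix.mul_sub, Matrix.sub_mul]
      have : ε' * (ε' * A * ε') * ε' = (ε' * ε') * A * (ε' * ε') := by
        simp only [Matrix.mul_assoc]
      rw [this, hε', sub_self]
  · -- `A` with `ε' A ε'` of trace zero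
    have key : ∃ A ∈ L, ε * A * ε = Y ∧ (ε' * A * ε').trace = 0 := by
      have hsp := hprf Y hY1 hY2
      clear hY1 hY2
      induction hsp using Submodule.span_induction with
      | mem Z hZ =>
        obtain ⟨A₀, B₀, ⟨hA1, hA2⟩, ⟨hB1, hB2⟩, rfl⟩ := hZ
        obtain ⟨A, hA, hAY⟩ := hsur A₀ hA1 hA2
        obtain ⟨B, hB, hBY⟩ := hsur B₀ hB1 hB2
        refine ⟨A * B - B * A, hs.brk A hA B hB, ?_, ?_⟩
        · rw [comp_brk he.1 he.2.1 hA hB, hAY, hBY]
        · rw [comp_brk he'.1 he'.2.1 hA hB, Matrix.trace_sub, Matrix.trace_mul_comm, sub_self]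
      | zero =>
        exact ⟨0, L.zero_mem, by rw [Matrix.mul_zero, Matrix.zero_mul],
          by rw [Matrix.mul_zero, Matrix.zero_mul, Matrix.trace_zero]⟩
      | add Z₁ Z₂ _ _ h1 h2 =>
        obtain ⟨A, hA, hAY, hAt⟩ := h1
        obtain ⟨B, hB, hBY, hBt⟩ := h2
        refine ⟨A + B, L.add_mem hA hB, ?_, ?_⟩
        · rw [Matrix.mul_add, Matrix.add_mul, hAY, hBY]
        · rw [Matrix.mul_add, Matrix.add_mul, Matrix.trace_add, hAt, hBt, add_zero]
      | smul c Z _ h1 =>
        obtain ⟨A, hA, hAY, hAt⟩ := h1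
        refine ⟨c • A, L.smul_mem c hA, ?_, ?_⟩
        · rw [Matrix.mul_smul, Matrix.smul_mul, hAY]
        · rw [Matrix.mul_smul, Matrix.smul_mul, Matrix.trace_smul, hAt, smul_zero]
    obtain ⟨A, hA, hAY, hAt⟩ := key
    set W := ε' * A * ε' with hW
    have hWW : ε' * W * ε' = W := by
      rw [hW]
      calc ε' * (ε' * A * ε') * ε' = (ε' * ε') * A * (ε' * ε') := by
            simp only [Matrix.mul_assoc]
        _ = ε' * A * ε' := by rw [hε']
    have h1 := hful.2 hr' W hWW hAt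
    have hP' := hadjP ε' he'
    have hAs := (skew_iff hd A).mp (hs.iso A hA)
    have hadjW : adj ψ W = adj ψ ε' * (-A) * adj ψ ε' := by
      rw [hW, adj_mul hd, adj_mul hd, hAs, Matrix.mul_assoc]
    -- orthogonality of `ε` and `adj ε'`
    have hne2 : ε ≠ adj ψ ε' := by
      intro hh
      have e1 := (hadj ε' he'.1).2
      rw [← hh, hr] at e1
      exact hne e1
    have o1 : ε * adj ψ ε' = 0 := horth ε he _ hP' hne2
    have o2 : ε' * adj ψ ε' = 0 := horth ε' he' _ hP' (Ne.symm hr')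
    refine ⟨A - (W - adj ψ W), L.sub_mem hA h1, ?_, ?_⟩
    · rw [Matrix.mul_sub, Matrix.sub_mul, Matrix.mul_sub, Matrix.sub_mul, hAY, hadjW, hW]
      have e1 : ε * (ε' * A * ε') * ε = (ε * ε') * A * (ε' * ε) := by
        simp only [Matrix.mul_assoc]
      have e2 : ε * (adj ψ ε' * (-A) * adj ψ ε') * ε = (ε * adj ψ ε') * (-A) * adj ψ ε' * ε := by
        simp only [Matrix.mul_assoc]
      rw [e1, e2, hεε', o1]
      simp only [Matrix.zero_mul, sub_zero]
    · rw [Matrix.mul_sub, Matrix.sub_mul, Matrix.mul_sub, Matrix.sub_mul, hWW, hadjW]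
      have e2 : ε' * (adj ψ ε' * (-A) * adj ψ ε') * ε' =
          (ε' * adj ψ ε') * (-A) * adj ψ ε' * ε' := by
        simp only [Matrix.mul_assoc]
      rw [e2, o2]
      simp only [Matrix.zero_mul, sub_zero]
      rw [hW, sub_self]

end EM
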