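import Pool.Agent.Helper21.EM.Stmts

/-!
# Adjoints (helper file for project T33)
-/

set_option autoImplicit false

open Matrix MT EM

namespace EM72

section adj

variable {K : Type} [Field K] {n : ℕ} {ψ : Matrix (Fin n) (Fin n) K}

theorem inv_mul_det (hd : ψ.det ≠ 0) : ψ⁻¹ * ψ = 1 :=
  Matrix.nonsing_inv_mul ψ (isUnit_iff_ne_zero.mpr hd)

theorem mul_inv_det (hd : ψ.det ≠ 0) : ψ * ψ⁻¹ = 1 :=
  Matrix.mul_nonsing_inv ψ (isUnit_iff_ne_zero.mpr hd)

theorem psi_adj (hd : ψ.det ≠ 0) (X : Matrix (Fin n) (Fin n) K) :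
    ψ * adj ψ X = X.transpose * ψ := by
  unfold adj
  rw [← Matrix.mul_assoc, ← Matrix.mul_assoc, mul_inv_det hd, Matrix.one_mul]

theorem adj_of_psi (hd : ψ.det ≠ 0) {X Y : Matrix (Fin n) (Fin n) K}
    (h : ψ * Y = X.transpose * ψ) : adj ψ X = Y := by
  unfold adj
  rw [Matrix.mul_assoc, ← h, ← Matrix.mul_assoc, inv_mul_det hd, Matrix.one_mul]

theorem adj_mul (hd : ψ.det ≠ 0) (X Y : Matrix (Fin n) (Fin n) K) :
    adj ψ (X * Y) = adj ψ Y * adj ψ X := by
  refine adj_of_psi hd ?_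
  rw [← Matrix.mul_assoc, psi_adj hd, Matrix.mul_assoc, psi_adj hd, ← Matrix.mul_assoc,
    Matrix.transpose_mul]

theorem adj_add (X Y : Matrix (Fin n) (Fin n) K) :
    adj ψ (X + Y) = adj ψ X + adj ψ Y := by
  unfold adj
  rw [Matrix.transpose_add, Matrix.mul_add, Matrix.add_mul]

theorem adj_sub (X Y : Matrix (Fin n) (Fin n) K) :
    adj ψ (X - Y) = adj ψ X - adj ψ Y := by
  unfold adj
  rw [Matrix.transpose_sub, Matrix.mul_sub, Matrix.sub_mul]

theorem adj_neg (X : Matrix (Fin n) (Fin n) K) : adj ψ (-X) = -adj ψ X := by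
  unfold adj
  rw [Matrix.transpose_neg, Matrix.mul_neg, Matrix.neg_mul]

theorem adj_smul (c : K) (X : Matrix (Fin n) (Fin n) K) : adj ψ (c • X) = c • adj ψ X := by
  unfold adj
  rw [Matrix.transpose_smul, Matrix.mul_smul, Matrix.smul_mul]

theorem adj_zero : adj ψ (0 : Matrix (Fin n) (Fin n) K) = 0 := by
  unfold adj
  rw [Matrix.transpose_zero, Matrix.mul_zero, Matrix.zero_mul]

theorem skew_iff (hd : ψ.det ≠ 0) (A : Matrix (Fin n) (Fin n) K) :
    A.transpose * ψ + ψ * A = 0 ↔ adj ψ A = -A := by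
  constructor
  · intro h
    refine adj_of_psi hd ?_
    rw [Matrix.mul_neg]
    exact (eq_neg_of_add_eq_zero_left h).symm
  · intro h
    rw [← psi_adj hd, h, Matrix.mul_neg, neg_add_cancel]

/-- The adjoint preserves the trace. -/
theorem trace_adj (hd : ψ.det ≠ 0) (X : Matrix (Fin n) (Fin n) K) :
    (adj ψ X).trace = X.trace := by
  unfold adj
  rw [Matrix.trace_mul_comm, ← Matrix.mul_assoc, mul_inv_det hd, Matrix.one_mul,
    Matrix.trace_transpose]

end adj

/-- brackets of compressions by an idempotent of the commutant -/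
theorem comp_brk {K : Type} [Field K] {n : ℕ} {L : Submodule K (Matrix (Fin n) (Fin n) K)}
    {ε A B : Matrix (Fin n) (Fin n) K} (hc : ε ∈ Cmt L) (hi : ε * ε = ε) (hA : A ∈ L)
    (hB : B ∈ L) : ε * (A * B - B * A) * ε =
      (ε * A * ε) * (ε * B * ε) - (ε * B * ε) * (ε * A * ε) := by
  have h1 : ∀ X ∈ L, ∀ Y ∈ L, (ε * X * ε) * (ε * Y * ε) = ε * (X * Y) * ε := by
    intro X hX Y hY
    have a1 : X * ε = ε * X := hc X hX
    calc (ε * X * ε) * (ε * Y * ε) = ε * X * (ε * ε) * Y * ε := by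
          simp only [Matrix.mul_assoc]
      _ = ε * (X * ε) * Y * ε := by rw [hi]; simp only [Matrix.mul_assoc]
      _ = (ε * ε) * X * Y * ε := by rw [a1]; simp only [Matrix.mul_assoc]
      _ = ε * (X * Y) * ε := by rw [hi]; simp only [Matrix.mul_assoc]
  rw [h1 A hA B hB, h1 B hB A hA, Matrix.mul_sub, Matrix.sub_mul]

theorem enm_pos {K : Type} [Field K] {n : ℕ} {L : Submodule K (Matrix (Fin n) (Fin n) K)}
    {P : Matrix.GeneralLinearGroup (Fin n) K} {k : Fin n} {r : ℕ} {f : Fin r → Fin n}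
    (he : Enm L P k r f) : 0 < r := by
  obtain ⟨i, -⟩ := (he.rng k).mpr fun _ _ => rfl
  exact Nat.lt_of_le_of_lt (Nat.zero_le _) i.2

end EM72
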