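import Pool.Agent.Helper72.EM.Prf

/-!
# The eigenvalue on the line of degree one (row LAM of project T33)
-/

set_option autoImplicit false

open Matrix MT EM

namespace EM72

section LAM

variable {K : Type} [Field K] {r : ℕ}

/-- conjugation by a frame -/
theorem conj_mul (P : Matrix.GeneralLinearGroup (Fin r) K) (X Y : Matrix (Fin r) (Fin r) K) :
    ((P⁻¹ : Matrix.GeneralLinearGroup (Fin r) K) : Matrix (Fin r) (Fin r) K) * (X * Y) *
        (P : Matrix (Fin r) (Fin r) K) =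
      (((P⁻¹ : Matrix.GeneralLinearGroup (Fin r) K) : Matrix (Fin r) (Fin r) K) * X *
        (P : Matrix (Fin r) (Fin r) K)) *
      (((P⁻¹ : Matrix.GeneralLinearGroup (Fin r) K) : Matrix (Fin r) (Fin r) K) * Y *
        (P : Matrix (Fin r) (Fin r) K)) := by
  have h1 : (P : Matrix (Fin r) (Fin r) K) *
      ((P⁻¹ : Matrix.GeneralLinearGroup (Fin r) K) : Matrix (Fin r) (Fin r) K) = 1 := by
    rw [← Units.val_mul, mul_inv_cancel, Units.val_one]
  calc ((P⁻¹ : Matrix.GeneralLinearGroup (Fin r) K) : Matrix (Fin r) (Fin r) K) * (X * Y) *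
        (P : Matrix (Fin r) (Fin r) K) =
      ((P⁻¹ : Matrix.GeneralLinearGroup (Fin r) K) : Matrix (Fin r) (Fin r) K) * X *
        (1 : Matrix (Fin r) (Fin r) K) * Y * (P : Matrix (Fin r) (Fin r) K) := by
        rw [Matrix.mul_one]; simp only [Matrix.mul_assoc]
    _ = _ := by rw [← h1]; simp only [Matrix.mul_assoc]

theorem conj_dg (P : Matrix.GeneralLinearGroup (Fin r) K) (s : Fin r → ℤ) :
    ((P⁻¹ : Matrix.GeneralLinearGroup (Fin r) K) : Matrix (Fin r) (Fin r) K) * dg P s *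
        (P : Matrix (Fin r) (Fin r) K) = Matrix.diagonal (fun j => (s j : K)) := by
  have h1 : ((P⁻¹ : Matrix.GeneralLinearGroup (Fin r) K) : Matrix (Fin r) (Fin r) K) *
      (P : Matrix (Fin r) (Fin r) K) = 1 := by
    rw [← Units.val_mul, inv_mul_cancel, Units.val_one]
  unfold dg
  calc _ = (((P⁻¹ : Matrix.GeneralLinearGroup (Fin r) K) : Matrix (Fin r) (Fin r) K) *
      (P : Matrix (Fin r) (Fin r) K)) * Matrix.diagonal (fun j => (s j : K)) *
      (((P⁻¹ : Matrix.GeneralLinearGroup (Fin r) K) : Matrix (Fin r) (Fin r) K) *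
      (P : Matrix (Fin r) (Fin r) K)) := by simp only [Matrix.mul_assoc]
    _ = _ := by rw [h1, Matrix.one_mul, Matrix.mul_one]

/-- skewness after conjugation -/
theorem conj_skew (P : Matrix.GeneralLinearGroup (Fin r) K) {ψ X : Matrix (Fin r) (Fin r) K}
    (h : X.transpose * ψ + ψ * X = 0) :
    (((P⁻¹ : Matrix.GeneralLinearGroup (Fin r) K) : Matrix (Fin r) (Fin r) K) * X *
        (P : Matrix (Fin r) (Fin r) K)).transpose *
        ((P : Matrix (Fin r) (Fin r) K).transpose * ψ * (P : Matrix (Fin r) (Fin r) K)) +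
      ((P : Matrix (Fin r) (Fin r) K).transpose * ψ * (P : Matrix (Fin r) (Fin r) K)) *
        (((P⁻¹ : Matrix.GeneralLinearGroup (Fin r) K) : Matrix (Fin r) (Fin r) K) * X *
        (P : Matrix (Fin r) (Fin r) K)) = 0 := by
  set Q := ((P⁻¹ : Matrix.GeneralLinearGroup (Fin r) K) : Matrix (Fin r) (Fin r) K)
  set p := (P : Matrix (Fin r) (Fin r) K)
  have h1 : p * Q = 1 := by
    rw [← Units.val_mul, mul_inv_cancel, Units.val_one]
  have h2 : Q.transpose * p.transpose = 1 := by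
    rw [← Matrix.transpose_mul, h1, Matrix.transpose_one]
  rw [Matrix.transpose_mul, Matrix.transpose_mul]
  calc p.transpose * (X.transpose * Q.transpose) * (p.transpose * ψ * p) +
      p.transpose * ψ * p * (Q * X * p) =
      p.transpose * X.transpose * (Q.transpose * p.transpose) * ψ * p +
      p.transpose * ψ * (p * Q) * X * p := by simp only [Matrix.mul_assoc]
    _ = p.transpose * (X.transpose * ψ + ψ * X) * p := by
      rw [h1, h2, Matrix.mul_one, Matrix.mul_one, Matrix.mul_add, Matrix.add_mul]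
      simp only [Matrix.mul_assoc]
    _ = 0 := by rw [h, Matrix.mul_zero, Matrix.zero_mul]

/-- The trace of an infinitesimal isometry vanishes. -/
theorem trace_skew [CharZero K] {ψ Z : Matrix (Fin r) (Fin r) K} (hd : ψ.det ≠ 0)
    (h : Z.transpose * ψ + ψ * Z = 0) : Z.trace = 0 := by
  have h1 := trace_adj hd Z
  rw [(skew_iff hd Z).mp h, Matrix.trace_neg] at h1
  have h2 : (2 : K) * Z.trace = 0 := by linear_combination -h1
  exact (mul_eq_zero.mp h2).resolve_left two_ne_zero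

/-- the set-up: everything in the frame -/
structure Fr1 (s : Fin r → ℤ) (i₀ j₀ : Fin r) (φ : Matrix (Fin r) (Fin r) K) : Prop where
  si : s i₀ = 1
  sj : s j₀ = -1
  s0 : ∀ j, j ≠ i₀ → j ≠ j₀ → s j = 0
  det : φ.det ≠ 0
  skew : (Matrix.diagonal (fun j => (s j : K))).transpose * φ +
    φ * Matrix.diagonal (fun j => (s j : K)) = 0

variable {s : Fin r → ℤ} {i₀ j₀ : Fin r} {φ : Matrix (Fin r) (Fin r) K}

theorem Fr1.ne (h : Fr1 s i₀ j₀ φ) : i₀ ≠ j₀ := by
  intro e
  have h1 := h.si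
  rw [e, h.sj] at h1
  omega

theorem Fr1.entry (h : Fr1 s i₀ j₀ φ) (i j : Fin r) : ((s i : K) + s j) * φ i j = 0 := by
  have h1 := congrFun (congrFun h.skew i) j
  rw [Matrix.add_apply, Matrix.diagonal_transpose, Matrix.diagonal_mul, Matrix.mul_diagonal,
    Matrix.zero_apply] at h1
  linear_combination h1

theorem Fr1.row [CharZero K] (h : Fr1 s i₀ j₀ φ) {j : Fin r} (hj : j ≠ j₀) : φ i₀ j = 0 := by
  have h1 := h.entry i₀ j
  rcases mul_eq_zero.mp h1 with h2 | h2
  · exfalso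
    rw [h.si] at h2
    by_cases hji : j = i₀
    · rw [hji, h.si] at h2
      norm_num at h2
    · rw [h.s0 j hji hj] at h2
      norm_num at h2
  · exact h2

theorem Fr1.col [CharZero K] (h : Fr1 s i₀ j₀ φ) {i : Fin r} (hi : i ≠ i₀) : φ i j₀ = 0 := by
  have h1 := h.entry i j₀
  rcases mul_eq_zero.mp h1 with h2 | h2
  · exfalso
    rw [h.sj] at h2
    by_cases hij : i = j₀
    · rw [hij, h.sj] at h2
      norm_num at h2
    · rw [h.s0 i hi hij] at h2
      norm_num at h2
  · exact h2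

theorem Fr1.piv [CharZero K] (h : Fr1 s i₀ j₀ φ) : φ i₀ j₀ ≠ 0 := by
  intro h0
  apply h.det
  refine Matrix.det_eq_zero_of_row_eq_zero i₀ fun j => ?_
  by_cases hj : j = j₀
  · rw [hj, h0]
  · exact h.row hj

/-- entries of an element of degree `x` -/
theorem deg_entry {y : Matrix (Fin r) (Fin r) K} {x : K}
    (hy : Matrix.diagonal (fun j => (s j : K)) * y - y * Matrix.diagonal (fun j => (s j : K)) =
      x • y) (i j : Fin r) : ((s i : K) - s j - x) * y i j = 0 := by
  have h1 := congrFun (congrFun hy i) j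
  rw [Matrix.sub_apply, Matrix.diagonal_mul, Matrix.mul_diagonal, Matrix.smul_apply,
    smul_eq_mul] at h1
  linear_combination h1

/-- back from the frame -/
theorem conj_inj (P : Matrix.GeneralLinearGroup (Fin r) K) {X Y : Matrix (Fin r) (Fin r) K}
    (h : ((P⁻¹ : Matrix.GeneralLinearGroup (Fin r) K) : Matrix (Fin r) (Fin r) K) * X *
        (P : Matrix (Fin r) (Fin r) K) =
      ((P⁻¹ : Matrix.GeneralLinearGroup (Fin r) K) : Matrix (Fin r) (Fin r) K) * Y *
        (P : Matrix (Fin r) (Fin r) K)) : X = Y := by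
  have h1 : (P : Matrix (Fin r) (Fin r) K) *
      ((P⁻¹ : Matrix.GeneralLinearGroup (Fin r) K) : Matrix (Fin r) (Fin r) K) = 1 := by
    rw [← Units.val_mul, mul_inv_cancel, Units.val_one]
  have h2 : ∀ Z : Matrix (Fin r) (Fin r) K, (P : Matrix (Fin r) (Fin r) K) *
      (((P⁻¹ : Matrix.GeneralLinearGroup (Fin r) K) : Matrix (Fin r) (Fin r) K) * Z *
        (P : Matrix (Fin r) (Fin r) K)) *
        ((P⁻¹ : Matrix.GeneralLinearGroup (Fin r) K) : Matrix (Fin r) (Fin r) K) = Z := by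
    intro Z
    calc _ = ((P : Matrix (Fin r) (Fin r) K) *
        ((P⁻¹ : Matrix.GeneralLinearGroup (Fin r) K) : Matrix (Fin r) (Fin r) K)) * Z *
        ((P : Matrix (Fin r) (Fin r) K) *
        ((P⁻¹ : Matrix.GeneralLinearGroup (Fin r) K) : Matrix (Fin r) (Fin r) K)) := by
          simp only [Matrix.mul_assoc]
      _ = Z := by rw [h1, Matrix.one_mul, Matrix.mul_one]
  rw [← h2 X, h, h2 Y]

/-- the elements commuting with the grading, in the frame -/
structure Fz (s : Fin r → ℤ) (i₀ j₀ : Fin r) (φ z : Matrix (Fin r) (Fin r) K) : Prop extends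
    Fr1 s i₀ j₀ φ where
  zskew : z.transpose * φ + φ * z = 0
  comm : Matrix.diagonal (fun j => (s j : K)) * z - z * Matrix.diagonal (fun j => (s j : K)) =
    (0 : K) • z

variable {z : Matrix (Fin r) (Fin r) K}

theorem Fz.entry0 [CharZero K] (h : Fz s i₀ j₀ φ z) {i j : Fin r} (hij : s i ≠ s j) :
    z i j = 0 := by
  have h1 := deg_entry h.comm i j
  rcases mul_eq_zero.mp h1 with h2 | h2
  · exfalso
    apply hij
    have h3 : ((s i : ℤ) : K) = ((s j : ℤ) : K) := by linear_combination h2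
    exact_mod_cast h3
  · exact h2

theorem Fr1.s_i (h : Fr1 s i₀ j₀ φ) {j : Fin r} (hj : j ≠ i₀) : s j ≠ s i₀ := by
  rw [h.si]
  by_cases hj' : j = j₀
  · rw [hj', h.sj]
    omega
  · rw [h.s0 j hj hj']
    omega

theorem Fr1.s_j (h : Fr1 s i₀ j₀ φ) {j : Fin r} (hj : j ≠ j₀) : s j ≠ s j₀ := by
  rw [h.sj]
  by_cases hj' : j = i₀
  · rw [hj', h.si]
    omega
  · rw [h.s0 j hj' hj]
    omega

theorem Fz.zjj [CharZero K] (h : Fz s i₀ j₀ φ z) : z j₀ j₀ = -z i₀ i₀ := by
  have h1 := congrFun (congrFun h.zskew i₀) j₀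
  rw [Matrix.add_apply, Matrix.mul_apply, Matrix.mul_apply, Matrix.zero_apply,
    Finset.sum_eq_single i₀, Finset.sum_eq_single j₀, Matrix.transpose_apply] at h1
  · have h2 : φ i₀ j₀ * (z i₀ i₀ + z j₀ j₀) = 0 := by linear_combination h1
    have h3 := (mul_eq_zero.mp h2).resolve_left h.piv
    linear_combination h3
  · intro c _ hc
    rw [h.entry0 (h.s_j hc), mul_zero]
  · intro hh
    exact absurd (Finset.mem_univ _) hh
  · intro c _ hc
    rw [h.col hc, mul_zero]
  · intro hh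
    exact absurd (Finset.mem_univ _) hh

/-- degree one: the entries which do not vanish -/
theorem deg1 [CharZero K] {y : Matrix (Fin r) (Fin r) K}
    (hy : Matrix.diagonal (fun j => (s j : K)) * y - y * Matrix.diagonal (fun j => (s j : K)) =
      (1 : K) • y) {i j : Fin r} (hij : s i - s j ≠ 1) : y i j = 0 := by
  have h1 := deg_entry hy i j
  rcases mul_eq_zero.mp h1 with h2 | h2
  · exfalso
    apply hij
    have h3 : ((s i - s j : ℤ) : K) = ((1 : ℤ) : K) := by
      push_cast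
      linear_combination h2
    exact_mod_cast h3
  · exact h2

/-- degree two: the entries which do not vanish -/
theorem Fr1.deg2 [CharZero K] (h : Fr1 s i₀ j₀ φ) {y : Matrix (Fin r) (Fin r) K}
    (hy : Matrix.diagonal (fun j => (s j : K)) * y - y * Matrix.diagonal (fun j => (s j : K)) =
      (2 : K) • y) {i j : Fin r} (hij : ¬ (i = i₀ ∧ j = j₀)) : y i j = 0 := by
  have h1 := deg_entry hy i j
  rcases mul_eq_zero.mp h1 with h2 | h2
  · exfalso
    have h3 : s i - s j = 2 := by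
      have h3 : ((s i - s j : ℤ) : K) = ((2 : ℤ) : K) := by
        push_cast
        linear_combination h2
      exact_mod_cast h3
    have hi : s i = 1 ∨ s i = -1 ∨ s i = 0 := by
      by_cases e1 : i = i₀
      · exact Or.inl (e1 ▸ h.si)
      · by_cases e2 : i = j₀
        · exact Or.inr (Or.inl (e2 ▸ h.sj))
        · exact Or.inr (Or.inr (h.s0 i e1 e2))
    have hj : s j = 1 ∨ s j = -1 ∨ s j = 0 := by
      by_cases e1 : j = i₀
      · exact Or.inl (e1 ▸ h.si)
      · by_cases e2 : j = j₀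
        · exact Or.inr (Or.inl (e2 ▸ h.sj))
        · exact Or.inr (Or.inr (h.s0 j e1 e2))
    apply hij
    have hi1 : s i = 1 := by omega
    have hj1 : s j = -1 := by omega
    constructor
    · by_contra e
      exact h.s_i e (hi1.trans h.si.symm)
    · by_contra e
      exact h.s_j e (hj1.trans h.sj.symm)
  · exact h2

/-- the action on degree two -/
theorem Fz.act2 [CharZero K] (h : Fz s i₀ j₀ φ z) {y : Matrix (Fin r) (Fin r) K}
    (hy : Matrix.diagonal (fun j => (s j : K)) * y - y * Matrix.diagonal (fun j => (s j : K)) =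
      (2 : K) • y) : z * y - y * z = (2 * z i₀ i₀) • y := by
  ext i j
  rw [Matrix.sub_apply, Matrix.smul_apply, smul_eq_mul]
  have e1 : (z * y) i j = z i₀ i₀ * y i j := by
    rw [Matrix.mul_apply, Finset.sum_eq_single i₀]
    · by_cases hi : i = i₀
      · rw [hi]
      · rw [h.entry0 (h.s_i hi), zero_mul, h.deg2 hy (fun e => hi e.1), mul_zero]
    · intro c _ hc
      rw [h.deg2 hy (fun e => hc e.1), mul_zero]
    · intro hh
      exact absurd (Finset.mem_univ _) hh
  have e2 : (y * z) i j = -z i₀ i₀ * y i j := by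
    rw [Matrix.mul_apply, Finset.sum_eq_single j₀]
    · by_cases hj : j = j₀
      · rw [hj, h.zjj]
        ring
      · rw [h.entry0 (Ne.symm (h.s_j hj)), mul_zero, h.deg2 hy (fun e => hj e.2), mul_zero]
    · intro c _ hc
      rw [h.deg2 hy (fun e => hc e.2), zero_mul]
    · intro hh
      exact absurd (Finset.mem_univ _) hh
  rw [e1, e2]
  ring

/-- the action on degree one -/
theorem Fz.act1 [CharZero K] (h : Fz s i₀ j₀ φ z) (y : Matrix (Fin r) (Fin r) K)
    (a : {j : Fin r // j ≠ i₀ ∧ j ≠ j₀}) :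
    (z * y - y * z) a j₀ = ∑ c : {j : Fin r // j ≠ i₀ ∧ j ≠ j₀}, (z a c) * y c j₀ +
      z i₀ i₀ * y a j₀ := by
  rw [Matrix.sub_apply]
  have e2 : (y * z) a j₀ = -z i₀ i₀ * y a j₀ := by
    rw [Matrix.mul_apply, Finset.sum_eq_single j₀]
    · rw [h.zjj]
      ring
    · intro c _ hc
      rw [h.entry0 (h.s_j hc), mul_zero]
    · intro hh
      exact absurd (Finset.mem_univ _) hh
  have e1 : (z * y) a j₀ = ∑ c : {j : Fin r // j ≠ i₀ ∧ j ≠ j₀}, (z a c) * y c j₀ := by
    rw [Matrix.mul_apply]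
    have h3 : ∑ c : {j : Fin r // j ≠ i₀ ∧ j ≠ j₀}, (z a c) * y c j₀ =
        ∑ c ∈ Finset.univ.filter (fun j => j ≠ i₀ ∧ j ≠ j₀), z a c * y c j₀ := by
      rw [Finset.sum_subtype (Finset.univ.filter (fun j => j ≠ i₀ ∧ j ≠ j₀))
        (p := fun j => j ≠ i₀ ∧ j ≠ j₀) (by intro x; simp)]
    rw [h3]
    symm
    refine Finset.sum_subset (Finset.subset_univ _) fun c _ hc => ?_
    rw [Finset.mem_filter, not_and_or] at hc
    have hc' : ¬ (c ≠ i₀ ∧ c ≠ j₀) := hc.resolve_left (fun hh => hh (Finset.mem_univ _))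
    by_cases hci : c = i₀
    · rw [hci, h.entry0 (h.s_i a.2.1), zero_mul]
    · have hcj : c = j₀ := by
        by_contra hcj
        exact hc' ⟨hci, hcj⟩
      rw [hcj, h.entry0 (h.s_j a.2.2), zero_mul]
  rw [e1, e2]
  ring

/-- the sum of the diagonal entries of degree zero -/
theorem Fz.tr0 [CharZero K] (h : Fz s i₀ j₀ φ z) :
    ∑ c : {j : Fin r // j ≠ i₀ ∧ j ≠ j₀}, z c c = 0 := by
  have h1 := trace_skew h.det h.zskew
  rw [Matrix.trace] at h1
  have h3 : ∑ c : {j : Fin r // j ≠ i₀ ∧ j ≠ j₀}, z c c =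
      ∑ c ∈ Finset.univ.filter (fun j => j ≠ i₀ ∧ j ≠ j₀), z c c := by
    rw [Finset.sum_subtype (Finset.univ.filter (fun j => j ≠ i₀ ∧ j ≠ j₀))
      (p := fun j => j ≠ i₀ ∧ j ≠ j₀) (by intro x; simp)]
  have h4 : Finset.univ.filter (fun j => j ≠ i₀ ∧ j ≠ j₀) =
      (Finset.univ.erase i₀).erase j₀ := by
    ext j
    simp only [Finset.mem_filter, Finset.mem_univ, true_and, Finset.mem_erase]
    tauto
  have h5 : ∑ c, z.diag c = z i₀ i₀ + (z j₀ j₀ +
      ∑ c ∈ (Finset.univ.erase i₀).erase j₀, z c c) := by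
    rw [← Finset.add_sum_erase Finset.univ (fun c => z.diag c) (Finset.mem_univ i₀),
      ← Finset.add_sum_erase (Finset.univ.erase i₀) (fun c => z.diag c)
        (Finset.mem_erase.mpr ⟨Ne.symm h.ne, Finset.mem_univ j₀⟩)]
    rfl
  rw [h3, h4]
  rw [h5, h.zjj] at h1
  linear_combination h1

theorem card_J (hne : i₀ ≠ j₀) :
    Fintype.card {j : Fin r // j ≠ i₀ ∧ j ≠ j₀} + 2 = r := by
  have h4 : Finset.univ.filter (fun j => j ≠ i₀ ∧ j ≠ j₀) =
      (Finset.univ.erase i₀).erase j₀ := by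
    ext j
    simp only [Finset.mem_filter, Finset.mem_univ, true_and, Finset.mem_erase]
    tauto
  rw [Fintype.card_subtype, h4, Finset.card_erase_of_mem
    (Finset.mem_erase.mpr ⟨Ne.symm hne, Finset.mem_univ j₀⟩),
    Finset.card_erase_of_mem (Finset.mem_univ i₀), Finset.card_univ, Fintype.card_fin]
  have h1 : 2 ≤ r := by
    have h2 : ({i₀, j₀} : Finset (Fin r)).card = 2 := Finset.card_pair hne
    have h3 := Finset.card_le_univ ({i₀, j₀} : Finset (Fin r))
    rw [h2, Fintype.card_fin] at h3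
    exact h3
  omega

/-- the infinitesimal isometry attached to two vectors -/
def AA (ψ : Matrix (Fin r) (Fin r) K) (σ : K) (u x : Fin r → K) : Matrix (Fin r) (Fin r) K :=
  Matrix.vecMulVec x (ψ *ᵥ u) - σ • Matrix.vecMulVec u (ψ *ᵥ x)

theorem AA_skew {ψ : Matrix (Fin r) (Fin r) K} {σ : K} (hσ : σ * σ = 1)
    (hs : ψ.transpose = σ • ψ) (u x : Fin r → K) :
    (AA ψ σ u x).transpose * ψ + ψ * AA ψ σ u x = 0 := by
  have h1 : ∀ a b : Fin r → K, (Matrix.vecMulVec a (ψ *ᵥ b)).transpose * ψ =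
      σ • Matrix.vecMulVec (ψ *ᵥ b) (ψ *ᵥ a) := by
    intro a b
    rw [transpose_vecMulVec, MT.Psr.vecMulVec_mul', hs, smul_mulVec]
    ext i j
    simp only [Matrix.vecMulVec_apply, Matrix.smul_apply, Pi.smul_apply, smul_eq_mul]
    ring
  unfold AA
  rw [Matrix.transpose_sub, Matrix.transpose_smul, Matrix.sub_mul, Matrix.mul_sub,
    Matrix.smul_mul, Matrix.mul_smul, h1, h1, MT.Psr.mul_vecMulVec', MT.Psr.mul_vecMulVec',
    smul_smul, hσ, one_smul]
  abel

theorem AA_brk {ψ T : Matrix (Fin r) (Fin r) K} {σ : K}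
    (hT : T.transpose * ψ + ψ * T = 0) (u x : Fin r → K) :
    T * AA ψ σ u x - AA ψ σ u x * T = AA ψ σ (T *ᵥ u) x + AA ψ σ u (T *ᵥ x) := by
  have h1 : ∀ v, T.transpose *ᵥ (ψ *ᵥ v) = - (ψ *ᵥ (T *ᵥ v)) := by
    intro v
    rw [mulVec_mulVec, mulVec_mulVec, eq_neg_of_add_eq_zero_left hT, neg_mulVec]
  unfold AA
  rw [Matrix.mul_sub, Matrix.sub_mul, Matrix.mul_smul, Matrix.smul_mul, MT.Psr.mul_vecMulVec',
    MT.Psr.mul_vecMulVec', MT.Psr.vecMulVec_mul', MT.Psr.vecMulVec_mul', h1, h1]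
  ext i j
  simp only [Matrix.add_apply, Matrix.sub_apply, Matrix.smul_apply, Matrix.vecMulVec_apply,
    Pi.neg_apply, smul_eq_mul]
  ring

/-- in the frame -/
theorem AA_conj {ψ : Matrix (Fin r) (Fin r) K} {σ : K} (P : Matrix.GeneralLinearGroup (Fin r) K)
    (u x : Fin r → K) :
    ((P⁻¹ : Matrix.GeneralLinearGroup (Fin r) K) : Matrix (Fin r) (Fin r) K) *
      AA ψ σ ((P : Matrix (Fin r) (Fin r) K) *ᵥ u) ((P : Matrix (Fin r) (Fin r) K) *ᵥ x) *
        (P : Matrix (Fin r) (Fin r) K) =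
      AA ((P : Matrix (Fin r) (Fin r) K).transpose * ψ * (P : Matrix (Fin r) (Fin r) K)) σ u x := by
  have h1 : ((P⁻¹ : Matrix.GeneralLinearGroup (Fin r) K) : Matrix (Fin r) (Fin r) K) *
      (P : Matrix (Fin r) (Fin r) K) = 1 := by
    rw [← Units.val_mul, inv_mul_cancel, Units.val_one]
  have h2 : ∀ v : Fin r → K, ((P⁻¹ : Matrix.GeneralLinearGroup (Fin r) K) :
      Matrix (Fin r) (Fin r) K) *ᵥ ((P : Matrix (Fin r) (Fin r) K) *ᵥ v) = v := by
    intro v
    rw [mulVec_mulVec, h1, one_mulVec]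
  unfold AA
  rw [Matrix.mul_sub, Matrix.sub_mul, Matrix.mul_smul, Matrix.smul_mul, MT.Psr.mul_vecMulVec',
    MT.Psr.mul_vecMulVec', MT.Psr.vecMulVec_mul', MT.Psr.vecMulVec_mul', h2, h2]
  simp only [mulVec_mulVec, Matrix.mul_assoc]

theorem dg_mulVec (P : Matrix.GeneralLinearGroup (Fin r) K) (s : Fin r → ℤ) (v : Fin r → K) :
    dg P s *ᵥ ((P : Matrix (Fin r) (Fin r) K) *ᵥ v) =
      (P : Matrix (Fin r) (Fin r) K) *ᵥ (fun j => (s j : K) * v j) := by
  have h1 : ((P⁻¹ : Matrix.GeneralLinearGroup (Fin r) K) : Matrix (Fin r) (Fin r) K) *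
      (P : Matrix (Fin r) (Fin r) K) = 1 := by
    rw [← Units.val_mul, inv_mul_cancel, Units.val_one]
  unfold dg
  rw [mulVec_mulVec, Matrix.mul_assoc, h1, Matrix.mul_one, ← mulVec_mulVec]
  congr 1
  funext j
  rw [mulVec_diagonal]

end LAM

end EM72
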