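import Pool.Agent.Helper72.EM.Adj

/-!
# Orthogonal Lie algebras are perfect (row PFO of project T33)
-/

set_option autoImplicit false

open Matrix MT EM MT.Psr MT.Smp MT.Grs

namespace EM72

variable {K : Type*} [Field K] {n : ℕ}

theorem co_add (psi : Matrix (Fin n) (Fin n) K) (b : Fin n → (Fin n → K))
    (A B : Matrix (Fin n) (Fin n) K) (i j : Fin n) :
    co psi b (A + B) i j = co psi b A i j + co psi b B i j := by
  unfold co
  rw [add_mulVec, pf_add_left]

theorem co_smul (psi : Matrix (Fin n) (Fin n) K) (b : Fin n → (Fin n → K)) (c : K)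
    (A : Matrix (Fin n) (Fin n) K) (i j : Fin n) :
    co psi b (c • A) i j = c * co psi b A i j := by
  unfold co
  rw [smul_mulVec, pf_smul_left]

theorem co_sub (psi : Matrix (Fin n) (Fin n) K) (b : Fin n → (Fin n → K))
    (A B : Matrix (Fin n) (Fin n) K) (i j : Fin n) :
    co psi b (A - B) i j = co psi b A i j - co psi b B i j := by
  have h1 : A - B = A + (-1 : K) • B := by rw [neg_one_smul, sub_eq_add_neg]
  rw [h1, co_add, co_smul]
  ring

theorem co_sum {ι : Type*} (psi : Matrix (Fin n) (Fin n) K) (b : Fin n → (Fin n → K))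
    (s : Finset ι) (A : ι → Matrix (Fin n) (Fin n) K) (i j : Fin n) :
    co psi b (∑ k ∈ s, A k) i j = ∑ k ∈ s, co psi b (A k) i j := by
  classical
  induction s using Finset.induction_on with
  | empty =>
    rw [Finset.sum_empty, Finset.sum_empty]
    unfold co
    rw [zero_mulVec, pf_zero_left]
  | insert a s ha ih => rw [Finset.sum_insert ha, Finset.sum_insert ha, co_add, ih]

theorem co_WW [CharZero K] {psi : Matrix (Fin n) (Fin n) K} (hpsi : psi.transpose = psi)
    {b : Fin n → (Fin n → K)} (ho : ∀ i j, i ≠ j → pf psi (b i) (b j) = 0) (k l i j : Fin n) :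
    co psi b (WW psi (b k) (b l)) i j =
      (if i = k then pf psi (b k) (b k) else 0) * (if j = l then pf psi (b l) (b l) else 0) -
      (if i = l then pf psi (b l) (b l) else 0) * (if j = k then pf psi (b k) (b k) else 0) := by
  unfold co
  rw [WW_mulVec]
  have e1 : ∀ (c d : K) (u v x : Fin n → K),
      pf psi (c • u - d • v) x = c * pf psi u x - d * pf psi v x := by
    intro c d u v x
    have : c • u - d • v = c • u + (-d) • v := by rw [neg_smul, sub_eq_add_neg]
    rw [this, pf_add_left, pf_smul_left, pf_smul_left]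
    ring
  rw [e1, pf_ite psi b ho i k, pf_ite psi b ho i l]
  have e2 : pf psi (b l) (b j) = if j = l then pf psi (b l) (b l) else 0 := by
    rw [pf_symm hpsi, pf_ite psi b ho j l]
  have e3 : pf psi (b k) (b j) = if j = k then pf psi (b k) (b k) else 0 := by
    rw [pf_symm hpsi, pf_ite psi b ho j k]
  rw [e2, e3]

/-- the expansion of an element of the orthogonal Lie algebra -/
theorem so_expand [CharZero K] {psi : Matrix (Fin n) (Fin n) K} (hpsi : psi.transpose = psi)
    (hu : IsUnit psi) (b : Module.Basis (Fin n) K (Fin n → K))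
    (ho : ∀ i j, i ≠ j → pf psi (b i) (b j) = 0) (hd : ∀ i, pf psi (b i) (b i) ≠ 0)
    {A : Matrix (Fin n) (Fin n) K} (hA : Iso psi A) :
    A = ∑ k : Fin n, ∑ l : Fin n,
      (co psi b A k l / (2 * (pf psi (b k) (b k) * pf psi (b l) (b l)))) •
        WW psi (b k) (b l) := by
  classical
  refine sub_eq_zero.mp (co_zero hu b fun i j => ?_)
  rw [co_sub, co_sum]
  have h1 : ∀ k : Fin n, co psi b (∑ l : Fin n,
      (co psi b A k l / (2 * (pf psi (b k) (b k) * pf psi (b l) (b l)))) •
        WW psi (b k) (b l)) i j =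
      (if i = k then co psi b A i j / 2 else 0) - (if j = k then co psi b A j i / 2 else 0) := by
    intro k
    rw [co_sum]
    simp only [co_smul, co_WW hpsi ho]
    simp only [mul_sub, Finset.sum_sub_distrib]
    congr 1
    · rw [Finset.sum_eq_single j]
      · by_cases hik : i = k
        · subst hik
          rw [if_pos rfl, if_pos rfl, if_pos rfl]
          field_simp [hd i, hd j]
        · rw [if_neg hik, if_neg hik, zero_mul, mul_zero]
      · intro l _ hl
        rw [if_neg (Ne.symm hl), mul_zero, mul_zero]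
      · intro h
        exact absurd (Finset.mem_univ _) h
    · rw [Finset.sum_eq_single i]
      · by_cases hjk : j = k
        · subst hjk
          rw [if_pos rfl, if_pos rfl, if_pos rfl]
          field_simp [hd i, hd j]
        · rw [if_neg hjk, if_neg hjk, mul_zero, mul_zero]
      · intro l _ hl
        rw [if_neg (Ne.symm hl), zero_mul, mul_zero]
      · intro h
        exact absurd (Finset.mem_univ _) h
  simp only [h1]
  rw [Finset.sum_sub_distrib, Finset.sum_ite_eq, Finset.sum_ite_eq, if_pos (Finset.mem_univ _),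
    if_pos (Finset.mem_univ _), co_anti b hpsi hA j i]
  ring

/-- the orthogonal Lie algebra is perfect in at least three variables -/
theorem so_perfect [CharZero K] {psi : Matrix (Fin n) (Fin n) K} (hpsi : psi.transpose = psi)
    (hu : IsUnit psi) (hn : 3 ≤ n) {A : Matrix (Fin n) (Fin n) K} (hA : A ∈ isoS psi) :
    A ∈ Submodule.span K {C | ∃ X ∈ isoS psi, ∃ Y ∈ isoS psi, C = X * Y - Y * X} := by
  classical
  obtain ⟨b, ho, hd⟩ := ortho_basis hpsi hu
  rw [so_expand hpsi hu b ho hd hA]
  refine Submodule.sum_mem _ fun k _ => Submodule.sum_mem _ fun l _ =>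
    Submodule.smul_mem _ _ ?_
  by_cases hkl : k = l
  · subst hkl
    have : WW psi (b k) (b k) = 0 := by unfold WW; rw [sub_self]
    rw [this]
    exact Submodule.zero_mem _
  -- a third index
  obtain ⟨m, hmk, hml⟩ : ∃ m : Fin n, m ≠ k ∧ m ≠ l := by
    by_contra h
    push Not at h
    have h1 : (Finset.univ : Finset (Fin n)) ⊆ {k, l} := by
      intro m _
      rw [Finset.mem_insert, Finset.mem_singleton]
      by_cases hm : m = k
      · exact Or.inl hm
      · exact Or.inr (h m hm)
    have h2 := Finset.card_le_card h1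
    rw [Finset.card_univ, Fintype.card_fin] at h2
    have h3 := Finset.card_le_two (a := k) (b := l)
    omega
  have h1 := bracket_WW (iso_WW hpsi (b k) (b m)) (b m) (b l)
  rw [WW_mulVec, WW_mulVec, ho _ _ hmk, ho _ _ (Ne.symm hkl), ho _ _ (Ne.symm hml)] at h1
  simp only [zero_smul, zero_sub, sub_zero] at h1
  have h6 : WW psi (b m) 0 = 0 := by
    unfold WW
    ext a c
    simp
  rw [h6, add_zero] at h1
  have h7 : WW psi (-(pf psi (b m) (b m) • b k)) (b l) =
      (-(pf psi (b m) (b m))) • WW psi (b k) (b l) := by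
    unfold WW
    ext a c
    simp only [Matrix.sub_apply, Matrix.smul_apply, vecMulVec_apply, Pi.neg_apply, Pi.smul_apply,
      smul_eq_mul, mulVec_neg, mulVec_smul]
    ring
  rw [h7] at h1
  have h8 : WW psi (b k) (b l) = (-(pf psi (b m) (b m)))⁻¹ •
      (WW psi (b k) (b m) * WW psi (b m) (b l) - WW psi (b m) (b l) * WW psi (b k) (b m)) := by
    rw [h1, smul_smul, inv_mul_cancel₀ (neg_ne_zero.mpr (hd m)), one_smul]
  rw [h8]
  exact Submodule.smul_mem _ _ (Submodule.subset_span
    ⟨_, iso_WW hpsi _ _, _, iso_WW hpsi _ _, rfl⟩)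

end EM72
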